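import Pool.Agent.Helper80.HD.GoalsB

/-! # HD, packet GAM: bounds for values of finitely many polynomials -/

set_option autoImplicit false

open MvPolynomial Filter Topology

noncomputable section

namespace Pool.Agent.Helper32.HD

open Pool.Agent.Helper80.HD

lemma gam_prod_le {Ω : Type} [Field Ω] (w : AbsoluteValue Ω ℝ) {σ : Type} (y : σ → Ω)
    (hy : ∀ i, w (y i) ≤ 1) (s : σ →₀ ℕ) : w (∏ i ∈ s.support, y i ^ s i) ≤ 1 := by
  rw [map_prod]
  refine Finset.prod_le_one (fun i _ => w.nonneg _) fun i _ => ?_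
  rw [map_pow]
  exact pow_le_one₀ (w.nonneg _) (hy i)

lemma gam_nonarch {K Ω : Type} [Field K] [Field Ω] (w : AbsoluteValue Ω ℝ) (hw : IsNonarchimedean w)
    (ι : K →+* Ω) {σ : Type} (y : σ → Ω) (hy : ∀ i, w (y i) ≤ 1) (Q : MvPolynomial σ K) (G : ℝ)
    (hG0 : 0 ≤ G) (hG : ∀ s ∈ Q.support, w (ι (Q.coeff s)) ≤ G) : w (eval₂ ι y Q) ≤ G := by
  rw [eval₂_eq]
  have key : ∀ t : Finset (σ →₀ ℕ), t ⊆ Q.support →
      w (∑ d ∈ t, ι (coeff d Q) * ∏ i ∈ d.support, y i ^ d i) ≤ G := by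
    classical
    intro t
    induction t using Finset.induction_on with
    | empty => intro _; simpa using hG0
    | insert d t hd ih =>
      intro h
      rw [Finset.sum_insert hd]
      refine (hw _ _).trans (max_le ?_ (ih ((Finset.subset_insert _ _).trans h)))
      rw [map_mul]
      calc w (ι (coeff d Q)) * w (∏ i ∈ d.support, y i ^ d i) ≤ w (ι (coeff d Q)) * 1 :=
            mul_le_mul_of_nonneg_left (gam_prod_le w y hy d) (w.nonneg _)
        _ = w (ι (coeff d Q)) := mul_one _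
        _ ≤ G := hG d (h (Finset.mem_insert_self _ _))
  exact key _ subset_rfl

lemma gam_arch {K : Type} [Field K] (ι : K →+* ℂ) {σ : Type} (y : σ → ℂ) (hy : ∀ i, ‖y i‖ ≤ 1)
    (Q : MvPolynomial σ K) : ‖eval₂ ι y Q‖ ≤ ∑ s ∈ Q.support, ‖ι (Q.coeff s)‖ := by
  rw [eval₂_eq]
  refine (norm_sum_le _ _).trans (Finset.sum_le_sum fun d _ => ?_)
  rw [norm_mul]
  have h := gam_prod_le absC y hy d
  have h' : ‖∏ i ∈ d.support, y i ^ d i‖ ≤ 1 := h
  calc ‖ι (coeff d Q)‖ * ‖∏ i ∈ d.support, y i ^ d i‖ ≤ ‖ι (coeff d Q)‖ * 1 :=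
        mul_le_mul_of_nonneg_left h' (norm_nonneg _)
    _ = _ := mul_one _

theorem gam : S_GAM := by
  classical
  intro K _ _ σ S hS
  set T : Finset K := insert 1 (hS.toFinset.biUnion fun Q => Q.support.image fun s => Q.coeff s)
    with hT
  have hT1 : (1 : K) ∈ T := Finset.mem_insert_self _ _
  have hTne : T.Nonempty := ⟨1, hT1⟩
  have hT0 : ∀ c ∈ T, c ≠ 0 := by
    intro c hc
    rw [hT, Finset.mem_insert, Finset.mem_biUnion] at hc
    rcases hc with rfl | ⟨Q, _, hc⟩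
    · exact one_ne_zero
    · rw [Finset.mem_image] at hc
      obtain ⟨s, hs, rfl⟩ := hc
      exact MvPolynomial.mem_support_iff.mp hs
  have hTm : ∀ Q ∈ S, ∀ s ∈ Q.support, Q.coeff s ∈ T := by
    intro Q hQ s hs
    rw [hT]
    refine Finset.mem_insert_of_mem (Finset.mem_biUnion.mpr ⟨Q, hS.mem_toFinset.mpr hQ, ?_⟩)
    exact Finset.mem_image.mpr ⟨s, hs, rfl⟩
  have hle : ∀ (v : AbsoluteValue K ℝ) (c : K), c ∈ T → v c ≤ T.sup' hTne (fun c => v c) :=
    fun v c hc => Finset.le_sup' (fun c => v c) hc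
  have hone : ∀ v : AbsoluteValue K ℝ, (∀ c ∈ T, v c = 1) → T.sup' hTne (fun c => v c) = 1 := by
    intro v hv
    apply le_antisymm
    · exact Finset.sup'_le _ _ fun c hc => (hv c hc).le
    · exact (hv 1 hT1).symm.le.trans (hle v 1 hT1)
  refine ⟨fun v => T.sup' hTne (fun c => v c),
    1 + ∑ τ : K →+* ℂ, ∑ Q ∈ hS.toFinset, ∑ s ∈ Q.support, ‖τ (Q.coeff s)‖, ⟨?_, ?_, ?_⟩, ?_, ?_⟩
  · intro v
    have := hle v 1 hT1
    rwa [map_one] at this
  · intro v hv
    exact hone v fun c hc => hv c (hT0 c hc)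
  · have hfin : ∀ c ∈ T, {v : AbsoluteValue K ℝ |
        v ∈ Height.AdmissibleAbsValues.nonarchAbsVal (K := K) ∧ v c ≠ 1}.Finite := by
      intro c hc
      have h1 := Height.AdmissibleAbsValues.hasFiniteMulSupport (hT0 c hc)
      have h2 : (Function.mulSupport
        (fun v : Height.AdmissibleAbsValues.nonarchAbsVal (K := K) ↦ v.val c)).Finite := h1
      refine (h2.image Subtype.val).subset ?_
      rintro v ⟨hv1, hv2⟩
      exact ⟨⟨v, hv1⟩, hv2, rfl⟩
    refine (T.finite_toSet.biUnion hfin).subset ?_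
    rintro v ⟨hv1, hv2⟩
    rw [Set.mem_iUnion₂]
    by_contra hcon
    push Not at hcon
    apply hv2
    apply hone v
    intro c hc
    by_contra hne
    exact hcon c hc ⟨hv1, hne⟩
  · have : 0 ≤ ∑ τ : K →+* ℂ, ∑ Q ∈ hS.toFinset, ∑ s ∈ Q.support, ‖τ (Q.coeff s)‖ := by
      positivity
    linarith
  · intro Q hQ
    refine ⟨?_, ?_⟩
    · intro Ω _ w ι y hw hy
      refine gam_nonarch w hw ι y hy Q _ ?_ ?_
      · exact (AbsoluteValue.nonneg _ _).trans (hle (w.comp ι.injective) 1 hT1)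
      · intro s hs
        exact hle (w.comp ι.injective) _ (hTm Q hQ s hs)
    · intro ι y hy
      refine (gam_arch ι y hy Q).trans ?_
      have h1 : ∑ s ∈ Q.support, ‖ι (Q.coeff s)‖ ≤
          ∑ Q ∈ hS.toFinset, ∑ s ∈ Q.support, ‖ι (Q.coeff s)‖ :=
        Finset.single_le_sum (f := fun Q : MvPolynomial σ K => ∑ s ∈ Q.support, ‖ι (Q.coeff s)‖)
          (fun _ _ => Finset.sum_nonneg fun _ _ => norm_nonneg _) (hS.mem_toFinset.mpr hQ)
      have h2 : ∑ Q ∈ hS.toFinset, ∑ s ∈ Q.support, ‖ι (Q.coeff s)‖ ≤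
          ∑ τ : K →+* ℂ, ∑ Q ∈ hS.toFinset, ∑ s ∈ Q.support, ‖τ (Q.coeff s)‖ :=
        Finset.single_le_sum
          (f := fun τ : K →+* ℂ => ∑ Q ∈ hS.toFinset, ∑ s ∈ Q.support, ‖τ (Q.coeff s)‖)
          (fun _ _ => Finset.sum_nonneg fun _ _ => Finset.sum_nonneg fun _ _ => norm_nonneg _)
          (Finset.mem_univ ι)
      linarith

end Pool.Agent.Helper32.HD
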