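import Pool.Agent.Helper44.HD.GoalsH

/-!
# Project HD (MP_e5f486_ag), packet SE: cocycles of positive degree of a semisimple algebra are
coboundaries
-/

set_option autoImplicit false

open Finset

namespace Pool.Agent.Helper32.HD

open Pool.Agent.Helper44.HD

section form

variable {k A : Type} [Field k] [Ring A] [Algebra k A] [FiniteDimensional k A]

/-- the trace of left multiplication -/
noncomputable def T (a : A) : k := LinearMap.trace k A (LinearMap.mulLeft k a)

omit [FiniteDimensional k A] in
theorem T_comm (a b : A) : T (k := k) (a * b) = T (b * a) := by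
  unfold T
  rw [LinearMap.mulLeft_mul, LinearMap.mulLeft_mul]
  exact LinearMap.trace_mul_comm k _ _

omit [FiniteDimensional k A] in
theorem T_add (a b : A) : T (k := k) (a + b) = T a + T b := by
  unfold T
  rw [← map_add]
  congr 1
  ext x
  simp [add_mul]

omit [FiniteDimensional k A] in
theorem T_smul (c : k) (a : A) : T (k := k) (c • a) = c * T a := by
  unfold T
  rw [← smul_eq_mul, ← map_smul]
  congr 1
  ext x
  simp

/-- the trace form -/
noncomputable def B : LinearMap.BilinForm k A :=
  LinearMap.mk₂ k (fun a b : A => T (k := k) (a * b))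
    (fun a b c => by rw [add_mul, T_add])
    (fun c a b => by rw [smul_mul_assoc, T_smul, smul_eq_mul])
    (fun a b c => by rw [mul_add, T_add])
    (fun c a b => by rw [mul_smul_comm, T_smul, smul_eq_mul])

omit [FiniteDimensional k A] in
theorem B_apply (a b : A) : B (k := k) a b = T (a * b) := rfl

theorem rad [CharZero k] [IsSemisimpleRing A] (x : A) (h : ∀ y, T (k := k) (x * y) = 0) :
    x = 0 := by
  let I : Ideal A :=
    { carrier := {x | ∀ y, T (k := k) (x * y) = 0}
      add_mem' := by
        intro a b ha hb y
        rw [add_mul, T_add, ha y, hb y, add_zero]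
      zero_mem' := by
        intro y
        rw [zero_mul]
        have := T_smul (k := k) (A := A) 0 0
        simpa using this
      smul_mem' := by
        intro c a ha y
        rw [smul_eq_mul, mul_assoc, T_comm, mul_assoc]
        exact ha _ }
  obtain ⟨e, he, hI⟩ := IsSemisimpleRing.ideal_eq_span_idempotent I
  have hx : x ∈ I := h
  have heI : e ∈ I := by
    rw [hI]
    exact Ideal.mem_span_singleton_self e
  have h1 : T (k := k) e = 0 := by
    have := heI 1
    rwa [mul_one] at this
  have h2 : IsIdempotentElem (LinearMap.mulLeft k e) := by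
    change LinearMap.mulLeft k e ∘ₗ LinearMap.mulLeft k e = _
    rw [← LinearMap.mulLeft_mul, he.eq]
  have h3 : LinearMap.mulLeft k e = 0 := LinearMap.IsIdempotentElem.eq_zero_of_trace_eq_zero h2 h1
  have h4 : e = 0 := by
    have := congrArg (fun f => f (1 : A)) h3
    simpa using this
  rw [hI, h4, Ideal.mem_span_singleton'] at hx
  obtain ⟨c, hc⟩ := hx
  rw [← hc, mul_zero]

theorem B_nondeg [CharZero k] [IsSemisimpleRing A] : (B (k := k) (A := A)).Nondegenerate := by
  refine ⟨fun x hx => rad (k := k) x fun y => hx y, fun x hx => rad (k := k) x fun y => ?_⟩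
  rw [T_comm]
  exact hx y

theorem sep [CharZero k] [IsSemisimpleRing A] : ∃ (m : ℕ) (x y : Fin m → A),
    (∀ (F : A →ₗ[k] A →ₗ[k] k) (a : A), ∑ i, F (a * x i) (y i) = ∑ i, F (x i) (y i * a)) ∧
    ∑ i, x i * y i = 1 := by
  classical
  let b := Module.finBasis k A
  let c := (B (k := k) (A := A)).dualBasis B_nondeg b
  have hb : ∀ a : A, a = ∑ i, (B (k := k) (c i) a) • b i := by
    intro a
    have h1 : ∀ i, b.repr a i = B (k := k) (c i) a := by
      intro i
      have h2 := congrArg (fun z => B (k := k) (c i) z) (b.sum_repr a)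
      simp only [map_sum, map_smul, smul_eq_mul] at h2
      rw [← h2]
      have h3 : ∀ j, B (k := k) (c i) (b j) = if j = i then 1 else 0 := fun j =>
        LinearMap.BilinForm.apply_dualBasis_left B_nondeg b i j
      simp [h3]
    conv_lhs => rw [← b.sum_repr a]
    exact sum_congr rfl fun i _ => by rw [h1]
  have hc : ∀ a : A, a = ∑ i, (B (k := k) a (b i)) • c i := by
    intro a
    conv_lhs => rw [← c.sum_repr a]
    exact sum_congr rfl fun i _ => by
      rw [LinearMap.BilinForm.dualBasis_repr_apply]
  refine ⟨_, b, c, fun F a => ?_, ?_⟩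
  · have h1 : ∀ i, F (a * b i) (c i) = ∑ j, B (k := k) (c j) (a * b i) * F (b j) (c i) := by
      intro i
      conv_lhs => rw [hb (a * b i)]
      simp only [map_sum, map_smul, LinearMap.sum_apply, LinearMap.smul_apply, smul_eq_mul]
    have h2 : ∀ j, F (b j) (c j * a) = ∑ i, B (k := k) (c j * a) (b i) * F (b j) (c i) := by
      intro j
      conv_lhs => rw [hc (c j * a)]
      simp only [map_sum, map_smul, smul_eq_mul]
    rw [sum_congr rfl fun i _ => h1 i, sum_congr rfl fun i _ => h2 i, sum_comm]
    refine sum_congr rfl fun j _ => sum_congr rfl fun i _ => ?_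
    rw [B_apply, B_apply, mul_assoc]
  · have h1 : ∀ a : A, T (k := k) a = T (a * ∑ i, b i * c i) := by
      intro a
      have h2 : T (k := k) a = ∑ i, B (k := k) (c i) (a * b i) := by
        unfold T
        rw [LinearMap.trace_eq_matrix_trace k b, Matrix.trace]
        refine sum_congr rfl fun i _ => ?_
        rw [Matrix.diag_apply, LinearMap.toMatrix_apply, LinearMap.mulLeft_apply]
        have h2 := congrArg (fun z => B (k := k) (c i) z) (b.sum_repr (a * b i))
        simp only [map_sum, map_smul, smul_eq_mul] at h2
        rw [← h2]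
        have h3 : ∀ j, B (k := k) (c i) (b j) = if j = i then 1 else 0 := fun j =>
          LinearMap.BilinForm.apply_dualBasis_left B_nondeg b i j
        simp [h3]
      rw [h2]
      have h4 : ∀ s : Finset (Fin (Module.finrank k A)), ∀ f : Fin (Module.finrank k A) → A,
          T (k := k) (∑ i ∈ s, f i) = ∑ i ∈ s, T (f i) := by
        intro s f
        induction s using Finset.induction_on with
        | empty =>
          rw [sum_empty, sum_empty]
          have := T_smul (k := k) (A := A) 0 0
          simpa using this
        | insert i s hi ih => rw [sum_insert hi, sum_insert hi, T_add, ih]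
      rw [mul_sum, h4]
      refine sum_congr rfl fun i _ => ?_
      rw [B_apply, T_comm, mul_assoc]
    have h5 : (1 : A) - ∑ i, b i * c i = 0 := by
      refine rad (k := k) _ fun y => ?_
      have h6 := h1 y
      rw [sub_mul, one_mul, sub_eq_add_neg, T_add, h6, ← neg_one_smul k (_ * y), T_smul, T_comm y]
      ring
    exact (sub_eq_zero.1 h5).symm

end form

set_option linter.unusedSectionVars false

section co

variable {k A : Type} [Field k] [Ring A] [Algebra k A]

/-- `(x_0 u, v, x_1, x_2, ..)` -/
def ins (u v : A) (x : ℕ → A) : ℕ → A := fun i =>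
  if i = 0 then x 0 * u else if i = 1 then v else x (i - 1)

/-- `(x_0 u, v, x_2, x_3, ..)` -/
def rep (u v : A) (x : ℕ → A) : ℕ → A := fun i =>
  if i = 0 then x 0 * u else if i = 1 then v else x i

omit [Algebra k A] in
theorem coch_ins (n : ℕ) (φ : (ℕ → A) → k) [Algebra k A] (h : Coch k (n + 1) φ) (u v : A) :
    Coch k n fun x => φ (ins u v x) := by
  refine h.subst (ins u v) (fun j => if j = 0 then 0 else j + 1) ?_ ?_ ?_ ?_ ?_
  · intro j hj
    split_ifs <;> omega
  · intro x y e i hi
    unfold ins
    split_ifs
    · rw [e 0 (Nat.zero_le _)]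
    · rfl
    · rw [e (i - 1) (by omega)]
  · intro x j a b hj i hi hij
    unfold ins
    by_cases h0 : i = 0
    · subst h0
      have hj0 : j ≠ 0 := by
        rintro rfl
        exact hij rfl
      simp [Function.update_of_ne (Ne.symm hj0)]
    · rw [if_neg h0, if_neg h0]
      split_ifs with h1
      · rfl
      · have : i - 1 ≠ j := by
          intro hh
          apply hij
          rw [if_neg (by omega)]
          omega
        rw [Function.update_of_ne this, Function.update_of_ne this]
  · intro x j a b hj
    unfold ins
    by_cases h0 : j = 0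
    · subst h0
      simp [add_mul]
    · simp [h0]
  · intro x j c a hj
    unfold ins
    by_cases h0 : j = 0
    · subst h0
      simp
    · simp [h0]

theorem rep_eq (n : ℕ) (φ : (ℕ → A) → k) (u v : A) (x : ℕ → A) :
    rep u v x = Function.update (Function.update x 0 (x 0 * u)) 1 v := by
  funext i
  unfold rep
  by_cases h1 : i = 1
  · subst h1
    simp
  · rw [Function.update_of_ne h1]
    by_cases h0 : i = 0
    · subst h0
      simp
    · rw [Function.update_of_ne h0, if_neg h0, if_neg h1]

theorem ct_ins (u v : A) (x : ℕ → A) (j : ℕ) (hj : 1 ≤ j) :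
    ct (j + 1) (ins u v x) = ins u v (ct j x) := by
  funext i
  unfold ct ins
  rcases Nat.eq_zero_or_pos i with h0 | h0
  · subst h0
    simp [show 0 < j from hj]
  · rcases Nat.eq_or_lt_of_le h0 with h1 | h1
    · have h1 : i = 1 := by omega
      subst h1
      simp [show 0 < j from hj]
    · have e1 : i ≠ 0 := by omega
      have e2 : i ≠ 1 := by omega
      have e3 : i + 1 ≠ 1 := by omega
      have e4 : j + 1 ≠ 0 := by omega
      have e5 : j + 1 ≠ 1 := by omega
      have e6 : i - 1 + 1 = i := by omega
      simp only [if_neg e1, if_neg e2, e6, Nat.add_sub_cancel]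
      rcases lt_trichotomy i (j + 1) with h | h | h
      · have h' : i - 1 < j := by omega
        simp [h, h']
      · have h' : i - 1 = j := by omega
        simp [h, h', e5, show j ≠ 0 by omega]
      · have h' : ¬ i - 1 < j := by omega
        have h'' : i - 1 ≠ j := by omega
        have h3 : ¬ i < j + 1 := by omega
        have h4 : i ≠ j + 1 := by omega
        simp [h', h'', h3, h4, e1]

theorem cy_ins (u v : A) (x : ℕ → A) (m : ℕ) (hm : 1 ≤ m) :
    cy (m + 1) (ins u v x) = ins u v (cy m x) := by
  funext i
  unfold cy ins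
  rcases Nat.eq_zero_or_pos i with h0 | h0
  · subst h0
    simp [show m ≠ 0 by omega, mul_assoc]
  · rcases Nat.eq_or_lt_of_le h0 with h1 | h1
    · have h1 : i = 1 := by omega
      subst h1
      simp
    · have e1 : i ≠ 0 := by omega
      have e2 : i ≠ 1 := by omega
      have e6 : i - 1 ≠ 0 := by omega
      simp [e1, e2, e6]

theorem ct_zero (u v : A) (x : ℕ → A) :
    ct 0 (ins u v x) = Function.update x 0 (x 0 * u * v) := by
  funext i
  unfold ct ins
  rcases Nat.eq_zero_or_pos i with h0 | h0
  · subst h0
    simp
  · have e1 : i ≠ 0 := by omega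
    simp [e1, Function.update_of_ne e1]

theorem ct_one (u v : A) (x : ℕ → A) :
    ct 1 (ins u v x) = rep u (v * x 1) x := by
  funext i
  unfold ct ins rep
  rcases Nat.eq_zero_or_pos i with h0 | h0
  · subst h0
    simp
  · rcases Nat.eq_or_lt_of_le h0 with h1 | h1
    · have h1 : i = 1 := by omega
      subst h1
      simp
    · have e1 : i ≠ 0 := by omega
      have e2 : i ≠ 1 := by omega
      simp [e1, e2]

theorem ins_ct (u v : A) (x : ℕ → A) :
    ins u v (ct 0 x) = rep (x 1 * u) v x := by
  funext i
  unfold ct ins rep
  rcases Nat.eq_zero_or_pos i with h0 | h0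
  · subst h0
    simp [mul_assoc]
  · rcases Nat.eq_or_lt_of_le h0 with h1 | h1
    · have h1 : i = 1 := by omega
      subst h1
      simp
    · have e1 : i ≠ 0 := by omega
      have e2 : i ≠ 1 := by omega
      have e3 : i - 1 ≠ 0 := by omega
      have e4 : i - 1 + 1 = i := by omega
      simp [e1, e2, e3, e4]

end co

theorem se : Pool.Agent.Helper44.HD.StmtSE := by
  intro k A _ _ _ _ _ _ n φ hφ
  obtain ⟨m, x, y, h1, h2⟩ := sep (k := k) (A := A)
  obtain ⟨hc, hd⟩ := hφ
  refine ⟨fun a => ∑ i, φ (ins (x i) (y i) a), ?_, fun a => ?_⟩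
  · exact Coch.sumc univ (fun i a => φ (ins (x i) (y i) a)) fun i _ => coch_ins n φ hc _ _
  · -- the bilinear map
    let F : A →ₗ[k] A →ₗ[k] k := LinearMap.mk₂ k (fun u v => φ (rep u v a))
      (fun u u' v => by
        simp only [rep_eq n φ]
        have e : ∀ w : A, Function.update (Function.update a 0 w) 1 v =
            Function.update (Function.update a 1 v) 0 w := fun w =>
          Function.update_comm (by norm_num) _ _ _
        rw [e, e, e, mul_add, hc.add _ _ _ _ (Nat.zero_le _)])
      (fun c u v => by
        simp only [rep_eq n φ]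
        have e : ∀ w : A, Function.update (Function.update a 0 w) 1 v =
            Function.update (Function.update a 1 v) 0 w := fun w =>
          Function.update_comm (by norm_num) _ _ _
        rw [e, e, mul_smul_comm, hc.smul _ _ _ _ (Nat.zero_le _)])
      (fun u v v' => by
        simp only [rep_eq n φ]
        rw [hc.add _ _ _ _ (by omega)])
      (fun c u v => by
        simp only [rep_eq n φ]
        rw [hc.smul _ _ _ _ (by omega)])
    have hF : ∀ u v, F u v = φ (rep u v a) := fun u v => rfl
    have h3 := h1 F (a 1)
    simp only [hF] at h3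
    have h4 : ∑ i, dl (n + 1) φ (ins (x i) (y i) a) = 0 := sum_eq_zero fun i _ => hd _
    have h5 : ∀ i, dl (n + 1) φ (ins (x i) (y i) a) =
        φ (Function.update a 0 (a 0 * x i * y i)) - φ (rep (x i) (y i * a 1) a)
        - ∑ j ∈ range n, (-1) ^ (j + 1) * φ (ins (x i) (y i) (ct (j + 1) a))
        - (-1) ^ (n + 1) * φ (ins (x i) (y i) (cy (n + 1) a)) := by
      intro i
      unfold dl
      rw [sum_range_succ', sum_range_succ', cy_ins _ _ _ _ (by omega), zero_add, ct_one, ct_zero]
      have h6 : ∑ j ∈ range n, (-1 : k) ^ (j + 1 + 1) * φ (ct (j + 1 + 1) (ins (x i) (y i) a)) =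
          - ∑ j ∈ range n, (-1) ^ (j + 1) * φ (ins (x i) (y i) (ct (j + 1) a)) := by
        rw [← sum_neg_distrib]
        refine sum_congr rfl fun j _ => ?_
        rw [ct_ins _ _ _ _ (by omega)]
        ring
      rw [h6]
      ring
    rw [sum_congr rfl fun i _ => h5 i] at h4
    simp only [sum_sub_distrib] at h4
    have h7 : ∑ i, φ (Function.update a 0 (a 0 * x i * y i)) = φ a := by
      rw [← hc.update_sum a 0 (Nat.zero_le _) univ]
      have : ∑ i, a 0 * x i * y i = a 0 := by
        simp only [mul_assoc]
        rw [← mul_sum, h2, mul_one]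
      rw [this, Function.update_eq_self]
    rw [h7, ← h3] at h4
    unfold dl
    rw [sum_range_succ']
    simp only [pow_zero, one_mul, ins_ct]
    rw [sum_comm] at h4
    simp only [← mul_sum] at h4
    linear_combination h4

end Pool.Agent.Helper32.HD
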